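import Mathlib
import Pool.Agent.H348R6.GV2

/-!
# Every regular uncountable cardinal carries a non-Galvin κ-complete filter extending the club filter

Let `κ` be a regular uncountable cardinal. In ZFC, with no further hypothesis, there is a proper
`κ`-complete filter over `κ` which contains every club subset of `κ` and does not have the Galvin
property: some sequence of `κ⁺` of its members has no subfamily of size `κ` whose intersection is
in the filter.

Idea: there are `κ × κ` many disjoint stationary subsets `t(x, y)` of `κ`, and there is a sequence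
`h i` (`i < κ⁺`) of functions `κ → κ` that is increasing modulo bounded sets. Let the filter consist
of all `X` for which there are fewer than `κ` indices `i` such that `t(x, y) \ X` is nonstationary
for all `(x, y)` not on the graphs of these `h i`, and let `A i` be the complement of
`⋃ x, t(x, h i x)`.
-/

set_option autoImplicit false

namespace Pool.Agent.Results.MP_52157e_lc.NonGalvinFilter

open Cardinal Set

universe u

/-- The filter `F` over the cardinal `κ` has the Galvin property: for every sequence of `κ⁺`
members of `F` there is a set of `κ` many indices with intersection in `F`. -/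
def Galvin (κ : Cardinal.{u}) (F : Filter κ.ord.ToType) : Prop :=
  ∀ A : (Order.succ κ).ord.ToType → Set κ.ord.ToType, (∀ i, A i ∈ F) →
    ∃ I : Set (Order.succ κ).ord.ToType, #I = κ ∧ ⋂ i ∈ I, A i ∈ F

/-- The filter `F` over the cardinal `κ` is `κ`-complete: the intersection of fewer than `κ`
members of `F` is a member of `F`. -/
def Complete (κ : Cardinal.{u}) (F : Filter κ.ord.ToType) : Prop :=
  ∀ S : Set (Set κ.ord.ToType), #S < κ → (∀ s ∈ S, s ∈ F) → ⋂₀ S ∈ F

theorem result (κ : Cardinal.{u}) (hκ : κ.IsRegular) (hω : ℵ₀ < κ) :
    ∃ F : Filter κ.ord.ToType,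
      F.NeBot ∧ Complete κ F ∧ (∀ C, IsClub C → C ∈ F) ∧ ¬ Galvin κ F := by
  obtain ⟨F, h1, h2, h3, A, hA, hA2⟩ := Pool.Agent.H348R6.GV.main hκ hω
  refine ⟨F, h1, h2, h3, fun hG => ?_⟩
  obtain ⟨I, hI, hI2⟩ := hG A hA
  exact hA2 I hI hI2

end Pool.Agent.Results.MP_52157e_lc.NonGalvinFilter
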